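import Pool.Agent.KS7_39.E3B.Lower

/-!
# The exact order `n ^ 2 / log n` of the gap between real and integer multiplicative bases
-/

open Finset

namespace Pool.Agent.Results.MP_e3bb54_nt.ExactOrder

/-- `B` is a set of positive reals and `A` is a set of positive integers contained in `B B`. -/
def RealBasis (B : Finset ℝ) (A : Finset ℕ) : Prop :=
  (∀ b ∈ B, 0 < b) ∧ ∀ a ∈ A, 0 < a ∧ ∃ x ∈ B, ∃ y ∈ B, (a : ℝ) = x * y

/-- `C` is a set of positive integers and `A` is contained in `C C`. -/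
def IntBasis (C : Finset ℕ) (A : Finset ℕ) : Prop :=
  (∀ c ∈ C, 0 < c) ∧ ∀ a ∈ A, ∃ x ∈ C, ∃ y ∈ C, a = x * y

lemma gcd_mul (S : Finset ℝ) (f : ℝ → ℕ) (r : ℝ) (h : ∀ x ∈ S, ∃ z : ℤ, (f x : ℝ) * r = z) :
    ∃ z : ℤ, ((S.gcd f : ℕ) : ℝ) * r = z := by
  classical
  induction S using Finset.induction_on with
  | empty => exact ⟨0, by simp⟩
  | insert b S hb ih =>
    obtain ⟨z, hz⟩ := ih fun x hx => h x (mem_insert_of_mem hx)
    obtain ⟨w, hw⟩ := h b (mem_insert_self _ _)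
    rw [Finset.gcd_insert]
    refine ⟨w * Nat.gcdA (f b) (S.gcd f) + z * Nat.gcdB (f b) (S.gcd f), ?_⟩
    have h1 := Nat.gcd_eq_gcd_ab (f b) (S.gcd f)
    have h2 : ((GCDMonoid.gcd (f b) (S.gcd f) : ℕ) : ℝ) =
        (f b : ℝ) * (Nat.gcdA (f b) (S.gcd f) : ℤ) + (S.gcd f : ℕ) * (Nat.gcdB (f b) (S.gcd f) : ℤ) := by
      have h3 : ((Nat.gcd (f b) (S.gcd f) : ℤ) : ℝ) =
          ((f b : ℤ) * Nat.gcdA (f b) (S.gcd f) + (S.gcd f : ℕ) * Nat.gcdB (f b) (S.gcd f) : ℤ) := by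
        exact_mod_cast h1
      push_cast at h3
      exact h3
    rw [h2]
    push_cast
    rw [← hz, ← hw]
    ring

/-- Complete bipartite pieces are covered by few integers. -/
lemma biclique (S J : Finset ℝ) (hS : ∀ x ∈ S, 0 < x) (hJ : ∀ y ∈ J, 0 < y)
    (h : ∀ x ∈ S, ∀ y ∈ J, ∃ k : ℕ, x * y = k) :
    ∃ a r : ℝ → ℕ, (∀ x ∈ S, 0 < a x) ∧ (∀ y ∈ J, 0 < r y) ∧
      ∀ x ∈ S, ∀ y ∈ J, x * y = (a x : ℝ) * r y := by
  classical
  rcases J.eq_empty_or_nonempty with rfl | ⟨y0, hy0⟩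
  · exact ⟨fun _ => 1, fun _ => 1, by simp, by simp, by simp⟩
  rcases S.eq_empty_or_nonempty with rfl | ⟨x0, hx0⟩
  · exact ⟨fun _ => 1, fun _ => 1, by simp, by simp, by simp⟩
  have h0 : ∀ x, ∃ k : ℕ, x ∈ S → x * y0 = k := fun x => by
    by_cases hx : x ∈ S
    · obtain ⟨k, hk⟩ := h x hx y0 hy0
      exact ⟨k, fun _ => hk⟩
    · exact ⟨0, fun h => absurd h hx⟩
  choose f hf using h0
  have hf0 : ∀ x ∈ S, 0 < f x := fun x hx => by
    have h1 := hf x hx
    have h2 := mul_pos (hS x hx) (hJ y0 hy0)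
    rw [h1] at h2
    exact_mod_cast h2
  have hg : 0 < S.gcd f := Nat.pos_of_ne_zero fun h1 => by
    rw [Finset.gcd_eq_zero_iff] at h1
    exact (hf0 x0 hx0).ne' (h1 x0 hx0)
  have hr : ∀ y, ∃ k : ℕ, y ∈ J → ((S.gcd f : ℕ) : ℝ) * (y / y0) = k := fun y => by
    by_cases hy : y ∈ J
    · obtain ⟨z, hz⟩ := gcd_mul S f (y / y0) (fun x hx => by
        obtain ⟨k, hk⟩ := h x hx y hy
        refine ⟨k, ?_⟩
        rw [← hf x hx]
        have := (hJ y0 hy0).ne'
        field_simp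
        exact_mod_cast hk)
      have h1 : (0 : ℝ) < z := by
        rw [← hz]
        have := hJ y hy
        have := hJ y0 hy0
        positivity
      have h2 : 0 < z := by exact_mod_cast h1
      refine ⟨z.toNat, fun _ => ?_⟩
      rw [hz]
      exact_mod_cast (Int.toNat_of_nonneg h2.le).symm
    · exact ⟨0, fun h => absurd h hy⟩
  choose r hr using hr
  have ha : ∀ x ∈ S, f x = S.gcd f * (f x / S.gcd f) := fun x hx =>
    (Nat.mul_div_cancel' (Finset.gcd_dvd hx)).symm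
  refine ⟨fun x => f x / S.gcd f, r, fun x hx => ?_, fun y hy => ?_, fun x hx y hy => ?_⟩
  · exact Nat.div_pos (Nat.le_of_dvd (hf0 x hx) (Finset.gcd_dvd hx)) hg
  · have h1 := hr y hy
    have h2 : (0 : ℝ) < ((S.gcd f : ℕ) : ℝ) * (y / y0) := by
      have := hJ y hy
      have := hJ y0 hy0
      have : (0 : ℝ) < ((S.gcd f : ℕ) : ℝ) := by exact_mod_cast hg
      positivity
    rw [h1] at h2
    exact_mod_cast h2
  · have h1 : (f x : ℝ) = (S.gcd f : ℕ) * ((f x / S.gcd f : ℕ) : ℝ) := by exact_mod_cast ha x hx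
    have h2 := hf x hx
    have h3 := hr y hy
    have h4 := (hJ y0 hy0).ne'
    calc x * y = (x * y0) * (y / y0) := by field_simp
      _ = ((f x / S.gcd f : ℕ) : ℝ) * (((S.gcd f : ℕ) : ℝ) * (y / y0)) := by
          rw [h2, h1]; ring
      _ = _ := by rw [h3]

lemma upper (m : ℕ) (hm : 1 ≤ m) (B : Finset ℝ) (hB : ∀ b ∈ B, 0 < b) :
    ∃ C : Finset ℕ, (∀ c ∈ C, 0 < c) ∧
      (∀ a : ℕ, (∃ x ∈ B, ∃ y ∈ B, (a : ℝ) = x * y) → ∃ c ∈ C, ∃ d ∈ C, a = c * d) ∧
      C.card ≤ (B.card / m + 1) * (m * 2 ^ m + B.card) := by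
  classical
  obtain ⟨idx, hidx1, hidx2⟩ : ∃ idx : ℝ → ℕ, (∀ x ∈ B, idx x < B.card) ∧
      ∀ x ∈ B, ∀ y ∈ B, idx x = idx y → x = y := by
    refine ⟨fun x => if h : x ∈ B then (B.equivFin ⟨x, h⟩ : ℕ) else 0, fun x hx => ?_,
      fun x hx y hy h => ?_⟩
    · simp only [dif_pos hx]
      exact (B.equivFin ⟨x, hx⟩).2
    · simp only [dif_pos hx, dif_pos hy] at h
      have := B.equivFin.injective (Fin.ext h)
      exact congrArg Subtype.val this
  obtain ⟨I, hI⟩ : ∃ I : ℕ → Finset ℝ, ∀ t, I t = B.filter fun x => idx x / m = t :=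
    ⟨_, fun _ => rfl⟩
  have hIB : ∀ t, I t ⊆ B := fun t => by rw [hI]; exact filter_subset _ _
  have hIc : ∀ t, (I t).card ≤ m := fun t => by
    have h1 : (I t).card ≤ (range m).card := by
      refine Finset.card_le_card_of_injOn (fun x => idx x % m) (fun x _ => ?_) fun x hx y hy h => ?_
      · exact mem_coe.2 (mem_range.2 (Nat.mod_lt _ hm))
      · rw [mem_coe, hI, mem_filter] at hx hy
        refine hidx2 x hx.1 y hy.1 ?_
        rw [← Nat.div_add_mod (idx x) m, ← Nat.div_add_mod (idx y) m, hx.2, hy.2]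
        simp only at h
        rw [h]
    rwa [card_range] at h1
  obtain ⟨nb, hnb⟩ : ∃ nb : ℕ → ℝ → Finset ℝ, ∀ t y, nb t y =
      (I t).filter fun x => ∃ k : ℕ, x * y = k := ⟨_, fun _ _ => rfl⟩
  obtain ⟨J, hJ⟩ : ∃ J : ℕ → Finset ℝ → Finset ℝ, ∀ t S, J t S = B.filter fun y => nb t y = S :=
    ⟨_, fun _ _ => rfl⟩
  have hbi : ∀ t S, ∃ a r : ℝ → ℕ, S ∈ (I t).powerset → (∀ x ∈ S, 0 < a x) ∧
      (∀ y ∈ J t S, 0 < r y) ∧ ∀ x ∈ S, ∀ y ∈ J t S, x * y = (a x : ℝ) * r y := by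
    intro t S
    by_cases hS : S ∈ (I t).powerset
    · rw [mem_powerset] at hS
      obtain ⟨a, r, h⟩ := biclique S (J t S) (fun x hx => hB x (hIB t (hS hx)))
        (fun y hy => by
          rw [hJ, mem_filter] at hy
          exact hB y hy.1) (fun x hx y hy => by
          rw [hJ, mem_filter] at hy
          rw [← hy.2, hnb, mem_filter] at hx
          exact hx.2)
      exact ⟨a, r, fun _ => h⟩
    · exact ⟨fun _ => 0, fun _ => 0, fun h => absurd h hS⟩
  choose a r har using hbi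
  refine ⟨(range (B.card / m + 1)).biUnion fun t => (I t).powerset.biUnion fun S =>
    S.image (a t S) ∪ (J t S).image (r t S), fun c hc => ?_, ?_, ?_⟩
  · simp only [mem_biUnion, mem_union, mem_image] at hc
    obtain ⟨t, -, S, hS, ⟨x, hx, rfl⟩ | ⟨y, hy, rfl⟩⟩ := hc
    · exact (har t S hS).1 x hx
    · exact (har t S hS).2.1 y hy
  · rintro n ⟨x, hx, y, hy, hn⟩
    have ht : idx x / m ∈ range (B.card / m + 1) :=
      mem_range.2 (Nat.lt_succ_of_le (Nat.div_le_div_right (hidx1 x hx).le))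
    have hxI : x ∈ nb (idx x / m) y := by
      rw [hnb, mem_filter, hI, mem_filter]
      exact ⟨⟨hx, rfl⟩, n, hn.symm⟩
    have hS : nb (idx x / m) y ∈ (I (idx x / m)).powerset := by
      rw [mem_powerset, hnb]
      exact filter_subset _ _
    have hyJ : y ∈ J (idx x / m) (nb (idx x / m) y) := by
      rw [hJ, mem_filter]
      exact ⟨hy, rfl⟩
    refine ⟨_, mem_biUnion.2 ⟨_, ht, mem_biUnion.2 ⟨_, hS, mem_union_left _
      (mem_image_of_mem _ hxI)⟩⟩, _, mem_biUnion.2 ⟨_, ht, mem_biUnion.2 ⟨_, hS,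
      mem_union_right _ (mem_image_of_mem _ hyJ)⟩⟩, ?_⟩
    have h1 := (har _ _ hS).2.2 x hxI y hyJ
    rw [← hn] at h1
    exact_mod_cast h1
  · refine (card_biUnion_le).trans ?_
    refine (Finset.sum_le_sum (g := fun _ => m * 2 ^ m + B.card) fun t _ => ?_).trans ?_
    · refine (card_biUnion_le).trans ?_
      have h1 : ∀ S ∈ (I t).powerset, (S.image (a t S) ∪ (J t S).image (r t S)).card ≤
          m + (J t S).card := fun S hS => by
        refine (card_union_le _ _).trans (add_le_add (card_image_le.trans ?_) card_image_le)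
        exact (card_le_card (mem_powerset.1 hS)).trans (hIc t)
      refine (Finset.sum_le_sum h1).trans ?_
      rw [sum_add_distrib, sum_const, card_powerset, smul_eq_mul]
      have h2 : ∑ S ∈ (I t).powerset, (J t S).card = B.card := by
        rw [card_eq_sum_card_fiberwise (f := nb t) (t := (I t).powerset)]
        · refine sum_congr rfl fun S _ => ?_
          rw [hJ]
        · intro y _
          rw [mem_coe, mem_powerset, hnb]
          exact filter_subset _ _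
      rw [h2, mul_comm m]
      exact Nat.add_le_add_right (Nat.mul_le_mul_right _ (Nat.pow_le_pow_right (by norm_num)
        (hIc t))) _
    · rw [sum_const, card_range, smul_eq_mul]

/-- **The exact order of the gap.** For `n ≥ 3` every set `A` of positive integers contained in the
product set of `n` positive reals has an integer basis with at most `9 n² / log n` elements, and
for some such `A` every integer basis has at least `n² / (130 log n)` elements. -/
theorem result (n : ℕ) (hn : 3 ≤ n) :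
    (∀ (B : Finset ℝ) (A : Finset ℕ), B.card = n → RealBasis B A →
      ∃ C : Finset ℕ, IntBasis C A ∧ (C.card : ℝ) ≤ 9 * n ^ 2 / Real.log n) ∧
    ∃ (B : Finset ℝ) (A : Finset ℕ), B.card = n ∧ RealBasis B A ∧
      ∀ C : Finset ℕ, IntBasis C A → (n : ℝ) ^ 2 / (130 * Real.log n) ≤ C.card := by
  obtain ⟨k, hk⟩ : ∃ k, k = Nat.log 2 n := ⟨_, rfl⟩
  have hk1 : 2 ^ k ≤ n := by rw [hk]; exact Nat.pow_log_le_self 2 (by omega)
  have hk2 : n < 2 ^ (k + 1) := by rw [hk]; exact Nat.lt_pow_succ_log_self (by norm_num) n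
  have hn0 : (0 : ℝ) < n := by exact_mod_cast (by omega : 0 < n)
  have hl2 : (0.6931471803 : ℝ) < Real.log 2 := Real.log_two_gt_d9
  have hl2' : Real.log 2 < 0.6931471808 := Real.log_two_lt_d9
  have hlog1 : Real.log 2 ≤ Real.log n :=
    Real.log_le_log (by norm_num) (by exact_mod_cast (by omega : 2 ≤ n))
  have hlog0 : 0 < Real.log n := by linarith
  have hlogk : Real.log n ≤ (k + 1) * Real.log 2 := by
    have h1 : (n : ℝ) ≤ (2 : ℝ) ^ (k + 1) := by exact_mod_cast hk2.le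
    have h2 := Real.log_le_log hn0 h1
    rw [Real.log_pow] at h2
    push_cast at h2
    exact h2
  have hlogk' : k * Real.log 2 ≤ Real.log n := by
    have h1 : (2 : ℝ) ^ k ≤ n := by exact_mod_cast hk1
    have h2 := Real.log_le_log (by positivity) h1
    rwa [Real.log_pow] at h2
  refine ⟨fun B A hBn hBA => ?_, ?_⟩
  · obtain ⟨m, hm⟩ : ∃ m, m = k / 2 + 1 := ⟨_, rfl⟩
    obtain ⟨C, hC0, hC1, hC2⟩ := upper m (by omega) B hBA.1
    refine ⟨C, ⟨hC0, fun a ha => hC1 a (hBA.2 a ha).2⟩, ?_⟩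
    rw [hBn] at hC2
    have h1 : m * 2 ^ m ≤ 2 * n := by
      have h2 : m ≤ 2 ^ (m - 1) := by
        have := Nat.lt_two_pow_self (n := m - 1)
        omega
      have h3 : 2 ^ m = 2 * 2 ^ (m - 1) := by
        rw [← pow_succ']; congr 1; omega
      calc m * 2 ^ m ≤ 2 ^ (m - 1) * (2 * 2 ^ (m - 1)) := by
            rw [← h3]; exact Nat.mul_le_mul_right _ h2
        _ = 2 * 2 ^ ((m - 1) + (m - 1)) := by rw [pow_add]; ring
        _ ≤ 2 * 2 ^ k := by
            refine Nat.mul_le_mul_left _ (Nat.pow_le_pow_right (by norm_num) (by omega))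
        _ ≤ 2 * n := Nat.mul_le_mul_left _ hk1
    have hmn : m ≤ n := by
      have := Nat.lt_two_pow_self (n := k)
      omega
    have hm0 : (0 : ℝ) < m := by exact_mod_cast (by omega : 0 < m)
    have h4 : ((n / m + 1 : ℕ) : ℝ) ≤ 2 * n / m := by
      have h5 : ((n / m : ℕ) : ℝ) ≤ n / m := Nat.cast_div_le
      have h6 : (1 : ℝ) ≤ n / m := by
        rw [one_le_div hm0]; exact_mod_cast hmn
      push_cast
      calc ((n / m : ℕ) : ℝ) + 1 ≤ n / m + n / m := add_le_add h5 h6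
        _ = 2 * n / m := by ring
    have h5 : (C.card : ℝ) ≤ (2 * n / m) * (3 * n) := by
      calc (C.card : ℝ) ≤ (((n / m + 1) * (m * 2 ^ m + n) : ℕ) : ℝ) := by exact_mod_cast hC2
        _ = ((n / m + 1 : ℕ) : ℝ) * ((m * 2 ^ m + n : ℕ) : ℝ) := by push_cast; ring
        _ ≤ (2 * n / m) * (3 * n) := by
            refine mul_le_mul h4 ?_ (Nat.cast_nonneg _) (by positivity)
            exact_mod_cast (by omega : m * 2 ^ m + n ≤ 3 * n)
    refine h5.trans ?_
    have h6 : (k : ℝ) + 1 ≤ 2 * m := by exact_mod_cast (by omega : k + 1 ≤ 2 * m)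
    have h7 : Real.log n ≤ 2 * m * Real.log 2 :=
      hlogk.trans (mul_le_mul_of_nonneg_right h6 (by linarith))
    have h8 : 2 * (n : ℝ) / m * (3 * n) = 6 * n ^ 2 / m := by ring
    rw [h8, div_le_div_iff₀ hm0 hlog0]
    have h9 : 6 * (n : ℝ) ^ 2 * Real.log n ≤ 6 * (n : ℝ) ^ 2 * (2 * m * Real.log 2) :=
      mul_le_mul_of_nonneg_left h7 (by positivity)
    refine h9.trans ?_
    have h10 : 2 * (m : ℝ) * Real.log 2 ≤ 2 * m * 0.7 :=
      mul_le_mul_of_nonneg_left (by linarith) (by positivity)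
    have h11 : 6 * (n : ℝ) ^ 2 * (2 * m * Real.log 2) ≤ 6 * (n : ℝ) ^ 2 * (2 * m * 0.7) :=
      mul_le_mul_of_nonneg_left h10 (by positivity)
    have h12 : 0 ≤ (n : ℝ) ^ 2 * m := by positivity
    linarith
  · obtain ⟨B, hB1, hB2, A, hA1, hA2⟩ := Pool.Agent.KS7_39.E3B.Lower.finite_form n hn
    refine ⟨B, A, hB2, ⟨hB1, fun a ha => ?_⟩, fun C hC => ?_⟩
    · obtain ⟨b, hb, c, hc, h⟩ := hA1 a ha
      refine ⟨?_, b, hb, c, hc, h.symm⟩
      have h1 := mul_pos (hB1 b hb) (hB1 c hc)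
      rw [h] at h1
      exact_mod_cast h1
    · have h4 := hA2 C fun x hx => by
        obtain ⟨c, hc, d, hd, h⟩ := hC.2 x hx
        exact ⟨c, hc, d, hd, h.symm⟩
      rw [← hk] at h4
      have h5 : ((n : ℝ) / 3) ^ 2 ≤ ((n / 2 : ℕ) : ℝ) ^ 2 := by
        apply pow_le_pow_left₀ (by positivity)
        have : n ≤ 3 * (n / 2) := by omega
        have h6 : (n : ℝ) ≤ 3 * ((n / 2 : ℕ) : ℝ) := by exact_mod_cast this
        linarith
      have h6 : (((n / 2 : ℕ) : ℝ)) ^ 2 ≤ 2 * ((4 * (k : ℝ) + 1) * C.card) := by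
        exact_mod_cast h4
      have hC0 : (0 : ℝ) ≤ C.card := Nat.cast_nonneg _
      have h8 : (4 * (k : ℝ) + 1) * Real.log 2 ≤ 5 * Real.log n := by nlinarith
      have h13 : ((n : ℝ) / 3) ^ 2 * Real.log 2 ≤ 2 * (5 * Real.log n) * C.card := by
        calc ((n : ℝ) / 3) ^ 2 * Real.log 2
            ≤ (2 * ((4 * (k : ℝ) + 1) * C.card)) * Real.log 2 :=
              mul_le_mul_of_nonneg_right (h5.trans h6) (by linarith)
          _ = 2 * ((4 * (k : ℝ) + 1) * Real.log 2) * C.card := by ring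
          _ ≤ 2 * (5 * Real.log n) * C.card := by
              apply mul_le_mul_of_nonneg_right _ hC0
              linarith
      rw [div_le_iff₀ (by positivity)]
      have h14 : 0 ≤ (n : ℝ) ^ 2 := by positivity
      have h15 : (n : ℝ) ^ 2 * 0.6931471803 ≤ (n : ℝ) ^ 2 * Real.log 2 :=
        mul_le_mul_of_nonneg_left hl2.le h14
      have h16 : ((n : ℝ) / 3) ^ 2 * Real.log 2 = (n : ℝ) ^ 2 * Real.log 2 / 9 := by ring
      rw [h16] at h13
      nlinarith

end Pool.Agent.Results.MP_e3bb54_nt.ExactOrder
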